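import Pool.Agent.W743.BT.Defs
set_option autoImplicit false

/-!
# BT-PIECE: one dyadic shell from its box pieces
-/

namespace Pool.Agent.W363.BT

open Set Filter MeasureTheory
open scoped Topology ContDiff FourierTransform ENNReal RealInnerProductSpace
open Pool.Agent.W773.BRA (E Bmp chi)
open Pool.Agent.W743.BT

/-- polynomial versus exponential -/
theorem poly_exp (n : ℕ) (ε : ℝ) (hε : 0 < ε) : ∃ C : ℝ, 0 < C ∧ ∀ l : ℕ,
    (((l / 2 : ℕ) : ℝ) + 1) ^ n ≤ C * 2 ^ ((l : ℝ) * ε) := by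
  have h2 : 0 < Real.log 2 := Real.log_pos (by norm_num)
  set c : ℝ := ε * Real.log 2 with hc
  have hc0 : 0 < c := by positivity
  refine ⟨n.factorial * Real.exp c / c ^ n, by positivity, fun l => ?_⟩
  have h3 := Real.pow_div_factorial_le_exp (x := c * ((l : ℝ) + 1)) (by positivity) n
  have h4 : (((l / 2 : ℕ) : ℝ) + 1) ^ n ≤ ((l : ℝ) + 1) ^ n := by
    refine pow_le_pow_left₀ (by positivity) ?_ n
    have : ((l / 2 : ℕ) : ℝ) ≤ (l : ℝ) := by exact_mod_cast Nat.div_le_self l 2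
    linarith
  have h5 : (2 : ℝ) ^ ((l : ℝ) * ε) = Real.exp (c * l) := by
    rw [Real.rpow_def_of_pos (by norm_num), hc]
    congr 1
    ring
  have h6 : Real.exp (c * ((l : ℝ) + 1)) = Real.exp c * Real.exp (c * l) := by
    rw [← Real.exp_add]
    congr 1
    ring
  rw [h5]
  refine h4.trans ?_
  have hf : (0 : ℝ) < n.factorial := by exact_mod_cast Nat.factorial_pos n
  rw [div_le_iff₀ hf, mul_pow, h6] at h3
  have hcn : 0 < c ^ n := by positivity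
  rw [div_mul_eq_mul_div, le_div_iff₀ hcn]
  nlinarith

theorem integrable_char {n : ℕ} (F : E n → ℂ) (hF : Integrable F) (x : E n) :
    Integrable (fun v : E n => Real.fourierChar ⟪v, x⟫ • F v) := by
  have := (Real.fourierIntegral_convergent_iff (μ := volume) (f := F) (-x)).2 hF
  simpa using this

theorem TT_sum {n : ℕ} {ι : Type} (s : Finset ι) (m : ι → E n → ℂ) (M g : E n → ℂ)
    (hM : ∀ ξ, ∑ κ ∈ s, m κ ξ = M ξ) (hi : ∀ κ ∈ s, Integrable (fun ξ : E n => m κ ξ * 𝓕 g ξ)) :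
    TT M g = ∑ κ ∈ s, TT (m κ) g := by
  funext x
  rw [Finset.sum_apply]
  unfold TT
  rw [Real.fourierInv_eq]
  have h1 : ∀ κ ∈ s, 𝓕⁻ (fun ξ : E n => m κ ξ * 𝓕 g ξ) x =
      ∫ v, Real.fourierChar ⟪v, x⟫ • (m κ v * 𝓕 g v) := fun κ _ => Real.fourierInv_eq _ _
  rw [Finset.sum_congr rfl h1, ← integral_finsetSum _ (fun κ hκ => integrable_char _ (hi κ hκ) x)]
  congr 1
  funext v
  rw [← hM v, Finset.sum_mul, Finset.smul_sum]

theorem piece (hLOC : S_LOC) (hMK : S_MK) (hTK : S_TK) (hTENF : S_TENF) : S_PIECE := by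
  intro n hn p hp h hh ε hε
  have hp0 : 0 < p := by linarith
  obtain ⟨C₀, hC₀, hloc⟩ := hLOC n hn p hp h hh (p * (ε / 2)) (by positivity)
  obtain ⟨C₁, hC₁, hpe⟩ := poly_exp n (ε / 2) (by positivity)
  refine ⟨C₁ * C₀ ^ (1 / p), by positivity, fun l M f hf => ?_⟩
  set N : ℝ := (2 : ℝ) ^ l with hN
  set K : ℕ := l / 2 with hK
  have hN1 : 1 ≤ N := one_le_pow₀ (by norm_num)
  have hK1 : (4 : ℝ) ^ K ≤ N := by
    rw [hN, show (4 : ℝ) = 2 ^ 2 by norm_num, ← pow_mul]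
    exact pow_le_pow_right₀ (by norm_num) (by omega)
  have hK2 : N < 4 ^ (K + 1) := by
    rw [hN, show (4 : ℝ) = 2 ^ 2 by norm_num, ← pow_mul]
    exact pow_lt_pow_right₀ (by norm_num) (by omega)
  obtain ⟨hmk, hsum⟩ := hMK n h hh N K hN1
  obtain ⟨-, hgi, -, -⟩ := hTENF n M f hf
  set s := Fintype.piFinset (fun _ : Fin n => Finset.range (K + 1)) with hs
  have hκ : ∀ κ ∈ s, ∀ j, κ j ≤ K := by
    intro κ hκ j
    have := Fintype.mem_piFinset.1 hκ j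
    rw [Finset.mem_range] at this
    omega
  have htt : TT (fun ξ : E n => ((h (2 ^ l * (1 - ‖ξ‖ ^ 2)) : ℝ) : ℂ)) (tens f) =
      ∑ κ ∈ s, TT (mk h N K κ) (tens f) := by
    refine TT_sum s _ _ _ (fun ξ => hsum ξ) fun κ hκ => ?_
    exact (hTK n (mk h N K κ) (hmk κ).1.continuous (hmk κ).2.1 (tens f) hgi).2.1
  rw [htt]
  have hq1 : (1 : ℝ≥0∞) ≤ ENNReal.ofReal p := by
    rw [← ENNReal.ofReal_one]
    exact ENNReal.ofReal_le_ofReal hp.le
  refine (eLpNorm_sum_le (fun κ _ => ((hTK n (mk h N K κ) (hmk κ).1.continuous (hmk κ).2.1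
    (tens f) hgi).1).aestronglyMeasurable) hq1).trans ?_
  set P : ℝ≥0∞ := ∏ j, (∫⁻ t, sq (fun k => f k j) t ^ (p / 2)) ^ (1 / p) with hP
  have hterm : ∀ κ ∈ s, eLpNorm (TT (mk h N K κ) (tens f)) (ENNReal.ofReal p) volume ≤
      ENNReal.ofReal (C₀ ^ (1 / p) * 2 ^ ((l : ℝ) * (Ep n p + ε / 2))) * P := by
    intro κ hκs
    have h1 := hloc N K κ M f hN1 hK1 hK2 (hκ κ hκs) hf
    rw [eLpNorm_eq_lintegral_rpow_enorm_toReal (by
      rw [Ne, ENNReal.ofReal_eq_zero, not_le]; exact hp0) ENNReal.ofReal_ne_top,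
      ENNReal.toReal_ofReal hp0.le]
    refine (ENNReal.rpow_le_rpow h1 (by positivity : 0 ≤ 1 / p)).trans (le_of_eq ?_)
    rw [ENNReal.mul_rpow_of_nonneg _ _ (by positivity : 0 ≤ 1 / p),
      ENNReal.ofReal_rpow_of_nonneg (by positivity) (by positivity), hP,
      ENNReal.prod_rpow_of_nonneg (by positivity : 0 ≤ 1 / p)]
    congr 2
    rw [Real.mul_rpow hC₀.le (by positivity), ← Real.rpow_mul (by positivity), hN,
      ← Real.rpow_natCast 2 l, ← Real.rpow_mul (by norm_num)]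
    congr 2
    field_simp
  refine (Finset.sum_le_sum hterm).trans ?_
  rw [Finset.sum_const, nsmul_eq_mul, ← mul_assoc]
  refine mul_le_mul_left ?_ _
  have hcard : s.card = (K + 1) ^ n := by
    rw [hs, Fintype.card_piFinset_const, Finset.card_range]
  rw [hcard, ← ENNReal.ofReal_natCast, ← ENNReal.ofReal_mul (Nat.cast_nonneg _)]
  refine ENNReal.ofReal_le_ofReal ?_
  have h1 := hpe l
  have h2 : (((K + 1) ^ n : ℕ) : ℝ) ≤ C₁ * 2 ^ ((l : ℝ) * (ε / 2)) := by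
    push_cast
    exact h1
  calc (((K + 1) ^ n : ℕ) : ℝ) * (C₀ ^ (1 / p) * 2 ^ ((l : ℝ) * (Ep n p + ε / 2)))
      ≤ (C₁ * 2 ^ ((l : ℝ) * (ε / 2))) * (C₀ ^ (1 / p) * 2 ^ ((l : ℝ) * (Ep n p + ε / 2))) :=
        mul_le_mul_of_nonneg_right h2 (by positivity)
    _ = C₁ * C₀ ^ (1 / p) * (2 ^ ((l : ℝ) * (ε / 2)) * 2 ^ ((l : ℝ) * (Ep n p + ε / 2))) := by
        ring
    _ = C₁ * C₀ ^ (1 / p) * 2 ^ ((l : ℝ) * (Ep n p + ε)) := by
        rw [← Real.rpow_add (by norm_num : (0 : ℝ) < 2)]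
        congr 2
        ring

end Pool.Agent.W363.BT
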